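import Pool.Agent.ZSharp.ChainP
import Pool.Agent.ZSharp.CountP
import Pool.Agent.ZSharp.StarChain

/-!
# Under `0^♯` the property `(*)`, with countable `N`, holds for some non-trivial constructible
forcing notions with `o^L(P) ≥ ω_1`
-/

set_option autoImplicit false

open Set Cardinal

namespace Pool.Agent.Results.MP_467ca8_lc.NegationQ1

open Pool.Agent.ZSharp

universe u

theorem result (h0 : ZeroSharp.{u}) (κ ν : Cardinal.{u}) (hκ : κ.IsRegular)
    (hκ0 : ℵ₀ < κ) : ∃ P R : ZFSet.{u},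
    Constructible P ∧ Constructible R ∧ IsForcing P R ∧ NonTrivial P R ∧
    OLIs P R κ.ord ∧ StarCountable (leP P R) κ ∧
    ∀ D : ZFSet.{u}, D ⊆ P → (∀ p ∈ P, ∃ q ∈ D, Le P R q p) → ν ≤ D.card := by
  have h2 : ℵ₀ < Order.succ κ := hκ0.trans (Order.lt_succ κ)
  have h3 : (Order.succ κ).IsRegular := isRegular_succ hκ0.le
  let ρ : Cardinal.{u} := max ν (Order.succ κ)
  have hρ1 : κ < ρ := (Order.lt_succ κ).trans_le (le_max_right _ _)
  have hρ : κ.ord ≤ ρ.ord := Cardinal.ord_le_ord.2 hρ1.le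
  have hf := Pos_forcing κ ρ.ord
  refine ⟨Pos κ ρ.ord, PosR κ ρ.ord, Pos_constr _ _, PosR_constr _ _, hf,
    Pos_nontrivial hκ hκ0 hρ, Pos_OL h0 hκ hκ0 hρ, ?_, fun D hD hDd => ?_⟩
  · exact Pos_starCountable h0 hκ hκ0 hρ <|
      star_of_chain hf h3 h2 fun Ant hA hA2 => chain_absolute h0 (Pos_constr _ _)
        (PosR_constr _ _) hf h3 h2 (Pos_chain h0 hκ0 _) Ant hA hA2
  · exact (le_max_left _ _).trans (Pos_dense_card hκ0.le hρ1 hD hDd)

end Pool.Agent.Results.MP_467ca8_lc.NegationQ1
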