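import Pool.Agent.ZSharp.StarChain

/-!
Under `0^♯` every constructible forcing notion with the `μ`-chain condition for constructible
families has the `μ`-chain condition in `V`, and satisfies `(*)` with `N ∩ H^V(χ)` of size
less than `μ`.
-/

set_option autoImplicit false

open Set Cardinal

namespace Pool.Agent.Results.MP_467ca8_lc.StarForChain

open Pool.Agent.ZSharp

universe u

theorem result (h0 : ZeroSharp.{u}) (P R : ZFSet.{u}) (hP : Constructible P)
    (hR : Constructible R) (hf : IsForcing P R) (μ : Cardinal.{u}) (hμ : μ.IsRegular)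
    (hμ0 : ℵ₀ < μ) (hcc : LChain P R μ) :
    (∀ Ant : Set ZFSet.{u}, (∀ a ∈ Ant, a ∈ P) →
      (∀ a ∈ Ant, ∀ b ∈ Ant, Compatible P R a b → a = b) →
        #Ant < Cardinal.lift.{u + 1} μ) ∧
    StarProp (leP P R) μ := by
  have h1 := fun Ant hA hA2 => chain_absolute h0 hP hR hf hμ hμ0 hcc Ant hA hA2
  exact ⟨h1, star_of_chain hf hμ hμ0 h1⟩

end Pool.Agent.Results.MP_467ca8_lc.StarForChain
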